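import Pool.Agent.Helper51.Hart.Defs2

/-!
# HT-07: good boxes around a maximal vertical interval, case of a common transversal direction
-/

set_option autoImplicit false

noncomputable section

open Set Metric Complex MeasureTheory

namespace Pool.Helper51.Hart

namespace H58

variable {σ : ℝ × ℂ → ℝ}

theorem clamp_mem {α β ρ : ℝ} (hαβ : α ≤ β) (hρ : 0 ≤ ρ) {r : ℝ} (hr : r ∈ Icc (α - ρ) (β + ρ)) :
    max α (min β r) ∈ Icc α β ∧ dist r (max α (min β r)) ≤ ρ := by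
  refine ⟨⟨le_max_left _ _, max_le hαβ (min_le_left _ _)⟩, ?_⟩
  rw [Real.dist_eq]
  rcases le_total β r with h | h
  · rw [min_eq_left h, max_eq_right hαβ, abs_of_nonneg (by linarith)]
    linarith [hr.2]
  · rw [min_eq_right h]
    rcases le_total α r with h' | h'
    · rw [max_eq_right h', sub_self, abs_zero]
      exact hρ
    · rw [max_eq_left h', abs_of_nonpos (by linarith)]
      linarith [hr.1]

/-- uniform bound of the derivative near the vertical interval -/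
theorem deriv_bound (hs : ContDiff ℝ ((⊤ : ℕ∞) : WithTop ℕ∞) σ) {w₀ : ℂ} {α β : ℝ}
    (hαβ : α ≤ β) {v : ℂ} (hneg : ∀ s ∈ Icc α β, fderiv ℝ σ (s, w₀) (0, v) < 0) :
    ∃ c1 > 0, ∃ ρ > 0, ∀ r ∈ Icc (α - ρ) (β + ρ), ∀ w : ℂ, ‖w - w₀‖ ≤ ρ → ∀ e : ℂ, ‖e‖ ≤ ρ →
      fderiv ℝ σ (r, w) (0, v + e) ≤ -c1 := by
  set Φ : ℝ × ℂ × ℂ → ℝ := fun x => fderiv ℝ σ (x.1, x.2.1) (0, v + x.2.2) with hΦ
  have hΦc : Continuous Φ := by
    have h1 : Continuous (fderiv ℝ σ) := hs.continuous_fderiv (by simp)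
    have h2 : Continuous fun x : ℝ × ℂ × ℂ => fderiv ℝ σ (x.1, x.2.1) :=
      h1.comp (by fun_prop)
    exact h2.clm_apply (by fun_prop)
  set K : Set (ℝ × ℂ × ℂ) := Icc α β ×ˢ ({w₀} : Set ℂ) ×ˢ ({0} : Set ℂ) with hK
  have hKc : IsCompact K := isCompact_Icc.prod (isCompact_singleton.prod isCompact_singleton)
  have hKne : K.Nonempty := ⟨(α, w₀, 0), ⟨⟨le_rfl, hαβ⟩, rfl, rfl⟩⟩
  obtain ⟨x₀, hx₀, hmax⟩ := hKc.exists_isMaxOn hKne hΦc.continuousOn
  have hneg0 : Φ x₀ < 0 := by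
    obtain ⟨s, w, e⟩ := x₀
    obtain ⟨hs0, hw0, he0⟩ := hx₀
    simp only [mem_singleton_iff] at hw0 he0
    simp only [hΦ, hw0, he0, add_zero]
    exact hneg s hs0
  set U : Set (ℝ × ℂ × ℂ) := {x | Φ x < Φ x₀ / 2} with hU
  have hUo : IsOpen U := isOpen_lt hΦc continuous_const
  have hKU : K ⊆ U := fun x hx => by
    have := hmax hx
    simp only [mem_ofPred_eq] at this
    simp only [hU, mem_ofPred_eq]
    linarith
  obtain ⟨ρ, hρ, hρU⟩ := hKc.exists_cthickening_subset_open hUo hKU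
  refine ⟨-(Φ x₀ / 2), by linarith, ρ, hρ, fun r hr w hw e he => ?_⟩
  obtain ⟨h1, h2⟩ := clamp_mem hαβ hρ.le hr
  have hmem : (r, w, e) ∈ cthickening ρ K := by
    refine mem_cthickening_of_dist_le (r, w, e) (max α (min β r), w₀, 0) ρ K ⟨h1, rfl, rfl⟩ ?_
    rw [Prod.dist_eq, Prod.dist_eq]
    refine max_le h2 (max_le ?_ ?_)
    · rw [dist_eq_norm]; exact hw
    · rw [dist_zero_right]; exact he
  have := hρU hmem
  simp only [hU, mem_ofPred_eq] at this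
  rw [neg_neg]
  exact this.le

/-- the cone property -/
theorem cone (hs : ContDiff ℝ ((⊤ : ℕ∞) : WithTop ℕ∞) σ) {w₀ v : ℂ} {c1 ρ : ℝ} {r : ℝ}
    (hv : ‖v‖ = 1) (hρ : 0 < ρ) (hρ1 : ρ ≤ 1)
    (hd : ∀ w : ℂ, ‖w - w₀‖ ≤ ρ → ∀ e : ℂ, ‖e‖ ≤ ρ → fderiv ℝ σ (r, w) (0, v + e) ≤ -c1)
    {w e : ℂ} (hw : ‖w - w₀‖ ≤ ρ / 2) (he : ‖e‖ ≤ ρ) {l : ℝ} (hl0 : 0 ≤ l) (hl : l ≤ ρ / 4) :
    σ (r, w + l * (v + e)) ≤ σ (r, w) - c1 * l := by
  have hve : ‖v + e‖ ≤ 2 := by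
    refine (norm_add_le _ _).trans ?_
    rw [hv]
    linarith
  have hder : ∀ t : ℝ, HasDerivAt (fun t : ℝ => σ (r, w + t * (v + e)))
      (fderiv ℝ σ (r, w + t * (v + e)) (0, v + e)) t := by
    intro t
    have h1 : HasFDerivAt σ (fderiv ℝ σ (r, w + t * (v + e))) (r, w + t * (v + e)) :=
      (hs.differentiable (by simp) _).hasFDerivAt
    have h2 : HasDerivAt (fun t : ℝ => ((r, w + t * (v + e)) : ℝ × ℂ)) (0, v + e) t := by
      refine (hasDerivAt_const t r).prodMk ?_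
      have h3 : HasDerivAt (fun t : ℝ => (t : ℂ)) 1 t := Complex.ofRealCLM.hasDerivAt
      simpa using (h3.mul_const (v + e)).const_add w
    exact h1.comp_hasDerivAt t h2
  have hmem : ∀ t ∈ interior (Icc 0 l), ‖w + t * (v + e) - w₀‖ ≤ ρ := by
    intro t ht
    rw [interior_Icc] at ht
    have h1 : ‖(t : ℂ) * (v + e)‖ ≤ ρ / 4 * 2 := by
      rw [norm_mul, Complex.norm_real, Real.norm_eq_abs, abs_of_pos ht.1]
      exact mul_le_mul (ht.2.le.trans hl) hve (norm_nonneg _) (by linarith)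
    calc ‖w + t * (v + e) - w₀‖ = ‖(w - w₀) + t * (v + e)‖ := by ring_nf
      _ ≤ ‖w - w₀‖ + ‖(t : ℂ) * (v + e)‖ := norm_add_le _ _
      _ ≤ ρ := by linarith
  have h := (convex_Icc (0 : ℝ) l).image_sub_le_mul_sub_of_deriv_le
    (f := fun t : ℝ => σ (r, w + t * (v + e)))
    (fun t _ => (hder t).continuousAt.continuousWithinAt)
    (fun t _ => (hder t).differentiableAt.differentiableWithinAt) (C := -c1)
    (fun t ht => by
      rw [(hder t).deriv]
      exact hd _ (hmem t ht) e he) 0 ⟨le_rfl, hl0⟩ l ⟨hl0, le_rfl⟩ hl0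
  simp only [Complex.ofReal_zero, zero_mul, add_zero, sub_zero] at h
  linarith

/-- negativity near a compact vertical interval -/
theorem strip (hs : Continuous σ) {w₀ : ℂ} {α β : ℝ} (hαβ : α ≤ β)
    (hneg : ∀ s ∈ Icc α β, σ (s, w₀) < 0) :
    ∃ ρ > 0, ∀ r ∈ Icc (α - ρ) (β + ρ), ∀ w : ℂ, ‖w - w₀‖ ≤ ρ → σ (r, w) < 0 := by
  set K : Set (ℝ × ℂ) := Icc α β ×ˢ ({w₀} : Set ℂ) with hK
  have hKc : IsCompact K := isCompact_Icc.prod isCompact_singleton
  have hUo : IsOpen {x | σ x < 0} := isOpen_lt hs continuous_const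
  have hKU : K ⊆ {x | σ x < 0} := fun x hx => by
    obtain ⟨s, w⟩ := x
    obtain ⟨hs0, hw0⟩ := hx
    simp only [mem_singleton_iff] at hw0
    simp only [mem_ofPred_eq, hw0]
    exact hneg s hs0
  obtain ⟨ρ, hρ, hρU⟩ := hKc.exists_cthickening_subset_open hUo hKU
  refine ⟨ρ, hρ, fun r hr w hw => ?_⟩
  obtain ⟨h1, h2⟩ := clamp_mem hαβ hρ.le hr
  have hmem : (r, w) ∈ cthickening ρ K := by
    refine mem_cthickening_of_dist_le (r, w) (max α (min β r), w₀) ρ K ⟨h1, rfl⟩ ?_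
    rw [Prod.dist_eq]
    refine max_le h2 ?_
    rw [dist_eq_norm]; exact hw
  exact hρU hmem

/-- positivity near a point -/
theorem pos_near (hs : Continuous σ) {w₀ : ℂ} {b : ℝ} (hb : 0 < σ (b, w₀)) :
    ∃ d > 0, ∀ w : ℂ, ‖w - w₀‖ ≤ d → 0 < σ (b, w) := by
  have h : ∀ᶠ w in nhds w₀, 0 < σ (b, w) :=
    (hs.comp (by fun_prop : Continuous fun w : ℂ => ((b, w) : ℝ × ℂ))).continuousAt.eventually
      (isOpen_Ioi.mem_nhds hb)
  obtain ⟨d, hd, hd'⟩ := Metric.eventually_nhds_iff.1 h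
  refine ⟨d / 2, by linarith, fun w hw => hd' ?_⟩
  rw [dist_eq_norm]
  linarith

end H58

open H58

variable {σ : ℝ × ℂ → ℝ}

/-- HT-07 -/
theorem box_typeII (hσ : Slice σ) {w₀ : ℂ} {α β : ℝ} (hm : MaxInt σ w₀ α β) {v : ℂ}
    (hv : ‖v‖ = 1) (hneg : ∀ s ∈ Icc α β, fderiv ℝ σ (s, w₀) (0, v) < 0) :
    ∃ a b δ, a < α ∧ β < b ∧ GoodBox σ a b w₀ δ := by
  obtain ⟨hα0, hαβ, hle, hup, hdown⟩ := hm
  have hcont : Continuous σ := hσ.smooth.continuous
  obtain ⟨c1, hc1, ρ', hρ', hd'⟩ := deriv_bound hσ.smooth hαβ hneg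
  -- make `ρ ≤ 1`
  obtain ⟨ρ, hρ, hρ1, hd⟩ : ∃ ρ > 0, ρ ≤ 1 ∧ ∀ r ∈ Icc (α - ρ) (β + ρ), ∀ w : ℂ, ‖w - w₀‖ ≤ ρ →
      ∀ e : ℂ, ‖e‖ ≤ ρ → fderiv ℝ σ (r, w) (0, v + e) ≤ -c1 := by
    refine ⟨min ρ' 1, lt_min hρ' one_pos, min_le_right _ _, fun r hr w hw e he => ?_⟩
    have h1 := min_le_left ρ' 1
    exact hd' r ⟨by linarith [hr.1], by linarith [hr.2]⟩ w (hw.trans h1) e (he.trans h1)
  have hcone : ∀ r ∈ Icc (α - ρ) (β + ρ), ∀ w e : ℂ, ‖w - w₀‖ ≤ ρ / 2 → ‖e‖ ≤ ρ →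
      ∀ l : ℝ, 0 ≤ l → l ≤ ρ / 4 → σ (r, w + l * (v + e)) ≤ σ (r, w) - c1 * l :=
    fun r hr w e hw he l hl0 hl => cone hσ.smooth hv hρ hρ1 (hd r hr) hw he hl0 hl
  -- the strip
  obtain ⟨ρ1, hρ1pos, hstrip⟩ := strip hcont (w₀ := w₀ + ((ρ / 4 : ℝ) : ℂ) * v) hαβ (by
    intro s hs
    have h1 := hcone s ⟨by linarith [hs.1], by linarith [hs.2]⟩ w₀ 0
      (by rw [sub_self, norm_zero]; linarith)
      (by simpa using hρ.le) (ρ / 4) (by linarith) le_rfl
    rw [add_zero] at h1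
    have h2 := hle s hs
    have : 0 < c1 * (ρ / 4) := by positivity
    linarith)
  set η : ℝ := min ρ ρ1 with hη
  have hηpos : 0 < η := lt_min hρ hρ1pos
  have hηρ : η ≤ ρ := min_le_left _ _
  have hηρ1 : η ≤ ρ1 := min_le_right _ _
  -- vertical segments between points of the closed slice
  have hfib0 : ∀ r r' : ℝ, 0 ≤ r → r ≤ r' → r ∈ Icc (α - η) (β + η) → r' ∈ Icc (α - η) (β + η) →
      ∀ w : ℂ, ‖w - w₀‖ ≤ η / 2 → σ (r, w) ≤ 0 → σ (r', w) ≤ 0 →
      ∀ s ∈ Icc r r', σ (s, w) ≤ 0 := by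
    intro r r' hr0 hrr hr hr' w hw h1 h2 s hs
    have hk := hσ.kont1 (fun _ => r) (fun _ => r')
      (fun t => w + (((1 - t) * (ρ / 4) : ℝ) : ℂ) * (v + 0))
      continuousOn_const continuousOn_const (by fun_prop) (fun t _ => ⟨hr0, hrr⟩) ?_ ?_
      1 ⟨zero_le_one, le_rfl⟩ s hs
    · simpa using hk
    · intro t ht
      have hl0 : 0 ≤ (1 - t) * (ρ / 4) := mul_nonneg (by linarith [ht.2]) (by linarith)
      have hl1 : (1 - t) * (ρ / 4) ≤ ρ / 4 := by
        have : (1 - t) * (ρ / 4) ≤ 1 * (ρ / 4) :=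
          mul_le_mul_of_nonneg_right (by linarith [ht.1]) (by linarith)
        linarith
      have hcl : 0 ≤ c1 * ((1 - t) * (ρ / 4)) := mul_nonneg hc1.le hl0
      have e1 := hcone r ⟨by linarith [hr.1], by linarith [hr.2]⟩ w 0 (by linarith)
        (by simpa using hρ.le) _ hl0 hl1
      have e2 := hcone r' ⟨by linarith [hr'.1], by linarith [hr'.2]⟩ w 0 (by linarith)
        (by simpa using hρ.le) _ hl0 hl1
      exact ⟨by linarith, by linarith⟩
    · intro u hu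
      refine (hstrip u ⟨?_, ?_⟩ _ ?_).le
      · linarith [hu.1, hr.1]
      · linarith [hu.2, hr'.2]
      · rw [show w + (((1 - 0) * (ρ / 4) : ℝ) : ℂ) * (v + 0) - (w₀ + ((ρ / 4 : ℝ) : ℂ) * v) =
          w - w₀ by simp]
        linarith
  have hfib : ∀ r r' : ℝ, 0 ≤ r → 0 ≤ r' → r ∈ Icc (α - η) (β + η) →
      r' ∈ Icc (α - η) (β + η) →
      ∀ w : ℂ, ‖w - w₀‖ ≤ η / 2 → σ (r, w) ≤ 0 → σ (r', w) ≤ 0 →
      ∀ s ∈ uIcc r r', σ (s, w) ≤ 0 := by
    intro r r' hr0 hr0' hr hr' w hw h1 h2 s hs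
    rcases le_total r r' with h | h
    · rw [uIcc_of_le h] at hs
      exact hfib0 r r' hr0 h hr hr' w hw h1 h2 s hs
    · rw [uIcc_of_ge h] at hs
      exact hfib0 r' r hr0' h hr' hr w hw h2 h1 s hs
  -- the ends of the box
  obtain ⟨b, hβb, hbη, hbpos⟩ := hup η hηpos
  obtain ⟨d1, hd1, hd1'⟩ := pos_near hcont hbpos
  obtain ⟨a, d2, haα, haη, hd2, hda⟩ : ∃ a d2 : ℝ, a < α ∧ α - η < a ∧ 0 < d2 ∧
      ∀ r w, 0 ≤ r → σ (r, w) ≤ 0 → ‖w - w₀‖ ≤ d2 → r ≠ a := by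
    rcases hdown with h0 | h0
    · refine ⟨α - η / 2, 1, by linarith, by linarith, one_pos, fun r w hr _ _ => ?_⟩
      intro h
      rw [h, h0] at hr
      linarith
    · obtain ⟨a, ha0, haη, haα, hapos⟩ := h0 η hηpos
      obtain ⟨d2, hd2, hd2'⟩ := pos_near hcont hapos
      refine ⟨a, d2, haα, haη, hd2, fun r w hr hrw hw h => ?_⟩
      rw [h] at hrw
      exact absurd hrw (not_le.2 (hd2' w hw))
  -- the size of the box
  set δ : ℝ := min (min d1 d2) (ρ * η / 16) with hδ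
  have hδpos : 0 < δ := lt_min (lt_min hd1 hd2) (by positivity)
  have hδ1 : δ ≤ d1 := (min_le_left _ _).trans (min_le_left _ _)
  have hδ2 : δ ≤ d2 := (min_le_left _ _).trans (min_le_right _ _)
  have hδ3 : δ ≤ ρ * η / 16 := min_le_right _ _
  have hδη : δ ≤ η / 16 := by
    refine hδ3.trans ?_
    have : ρ * η ≤ 1 * η := mul_le_mul_of_nonneg_right hρ1 hηpos.le
    linarith
  have hin : ∀ r w, InBox σ a b w₀ δ r w → r ∈ Icc (α - η) (β + η) := fun r w h =>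
    ⟨by linarith [h.2.2.1], by linarith [h.2.2.2.1]⟩
  have hin' : ∀ r w, InBox σ a b w₀ δ r w → r ∈ Icc (α - ρ) (β + ρ) := fun r w h =>
    ⟨by linarith [(hin r w h).1], by linarith [(hin r w h).2]⟩
  refine ⟨a, b, δ, haα, hβb, ⟨hδpos, ?_, ?_, ?_, ?_⟩⟩
  · intro r w hr hrw hw
    refine ⟨hda r w hr hrw (hw.trans hδ2), fun h => ?_⟩
    rw [h] at hrw
    exact absurd hrw (not_le.2 (hd1' w (hw.trans hδ1)))
  · intro r r' w h h'
    exact hfib r r' h.1 h'.1 (hin r w h) (hin r' w h') w (by linarith [h.2.2.2.2]) h.2.1 h'.2.1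
  · -- chain
    refine ⟨1 / ρ + 1, by positivity, ?_⟩
    intro r w r' w' h h'
    have hw := h.2.2.2.2
    have hw' := h'.2.2.2.2
    rcases eq_or_ne w w' with heq | hne
    · subst heq
      refine ⟨r, w, r', ⟨h.1, h'.1, ?_, ?_, ?_, ?_, ?_⟩, by simp, by simp⟩
      · intro s hs
        rw [uIcc_self, mem_singleton_iff] at hs
        rw [hs]; exact h.2.1
      · intro t _
        simpa using h.2.1
      · exact hfib r r' h.1 h'.1 (hin r w h) (hin r' w h') w (by linarith) h.2.1 h'.2.1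
      · intro t _
        simpa using h'.2.1
      · intro s hs
        rw [uIcc_self, mem_singleton_iff] at hs
        rw [hs]; exact h'.2.1
    · set s : ℝ := ‖w' - w‖ with hs
      have hspos : 0 < s := norm_pos_iff.2 (sub_ne_zero.2 hne.symm)
      have hs2 : s ≤ 2 * δ := by
        calc s = ‖(w' - w₀) - (w - w₀)‖ := by rw [hs]; ring_nf
          _ ≤ ‖w' - w₀‖ + ‖w - w₀‖ := norm_sub_le _ _
          _ ≤ 2 * δ := by linarith
      have hsρ : s / ρ ≤ η / 8 := by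
        rw [div_le_iff₀ hρ]
        linarith
      have hsρ0 : 0 ≤ s / ρ := by positivity
      have hsρ4 : s / ρ ≤ ρ / 4 := by linarith
      set e : ℂ := ((ρ / s : ℝ) : ℂ) * (w - w') with he
      have he' : ‖e‖ ≤ ρ := by
        rw [he, norm_mul, Complex.norm_real, Real.norm_eq_abs, abs_of_pos (by positivity),
          norm_sub_rev, ← hs, div_mul_cancel₀ _ hspos.ne']
      set w1 : ℂ := w + ((s / ρ : ℝ) : ℂ) * v with hw1
      have hw1' : w1 - w' = ((s / ρ : ℝ) : ℂ) * (v + e) := by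
        have hsc : (s : ℂ) ≠ 0 := by exact_mod_cast hspos.ne'
        have hρc : (ρ : ℂ) ≠ 0 := by exact_mod_cast hρ.ne'
        rw [hw1, he]
        push_cast
        field_simp
        ring
      have hw1n : ‖w1 - w₀‖ ≤ η / 2 := by
        calc ‖w1 - w₀‖ = ‖(w - w₀) + ((s / ρ : ℝ) : ℂ) * v‖ := by rw [hw1]; ring_nf
          _ ≤ ‖w - w₀‖ + ‖((s / ρ : ℝ) : ℂ) * v‖ := norm_add_le _ _
          _ ≤ η / 2 := by
            rw [norm_mul, hv, mul_one, Complex.norm_real, Real.norm_eq_abs, abs_of_nonneg hsρ0]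
            linarith
      have hseg1 : ∀ t ∈ Icc (0 : ℝ) 1, σ (r, w + t * (w1 - w)) ≤ 0 := by
        intro t ht
        have e1 : w + t * (w1 - w) = w + ((t * (s / ρ) : ℝ) : ℂ) * (v + 0) := by
          rw [hw1]; push_cast; ring
        rw [e1]
        have h0 : 0 ≤ t * (s / ρ) := mul_nonneg ht.1 hsρ0
        have h1 : t * (s / ρ) ≤ ρ / 4 := by
          have : t * (s / ρ) ≤ 1 * (s / ρ) := mul_le_mul_of_nonneg_right ht.2 hsρ0
          linarith
        have h2 := hcone r (hin' r w h) w 0 (by linarith) (by simpa using hρ.le) _ h0 h1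
        have h3 : 0 ≤ c1 * (t * (s / ρ)) := mul_nonneg hc1.le h0
        linarith [h.2.1]
      have hseg2 : ∀ t ∈ Icc (0 : ℝ) 1, σ (r', w1 + t * (w' - w1)) ≤ 0 := by
        intro t ht
        have e1 : w1 + t * (w' - w1) = w' + (((1 - t) * (s / ρ) : ℝ) : ℂ) * (v + e) := by
          have : w1 + t * (w' - w1) = w' + (1 - t) * (w1 - w') := by ring
          rw [this, hw1']
          push_cast
          ring
        rw [e1]
        have h0 : 0 ≤ (1 - t) * (s / ρ) := mul_nonneg (by linarith [ht.2]) hsρ0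
        have h1 : (1 - t) * (s / ρ) ≤ ρ / 4 := by
          have : (1 - t) * (s / ρ) ≤ 1 * (s / ρ) :=
            mul_le_mul_of_nonneg_right (by linarith [ht.1]) hsρ0
          linarith
        have h2 := hcone r' (hin' r' w' h') w' e (by linarith) he' _ h0 h1
        have h3 : 0 ≤ c1 * ((1 - t) * (s / ρ)) := mul_nonneg hc1.le h0
        linarith [h'.2.1]
      refine ⟨r, w1, r', ⟨h.1, h'.1, ?_, hseg1, ?_, hseg2, ?_⟩, ?_, ?_⟩
      · intro u hu
        rw [uIcc_self, mem_singleton_iff] at hu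
        rw [hu]; exact h.2.1
      · refine hfib r r' h.1 h'.1 (hin r w h) (hin r' w' h') w1 hw1n ?_ ?_
        · simpa using hseg1 1 ⟨zero_le_one, le_rfl⟩
        · simpa using hseg2 0 ⟨le_rfl, zero_le_one⟩
      · intro u hu
        rw [uIcc_self, mem_singleton_iff] at hu
        rw [hu]; exact h'.2.1
      · rw [show w1 - w = ((s / ρ : ℝ) : ℂ) * v by rw [hw1]; ring, norm_mul, hv, mul_one,
          Complex.norm_real, Real.norm_eq_abs, abs_of_nonneg hsρ0, add_mul, one_mul,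
          one_div_mul_eq_div]
        linarith
      · calc ‖w' - w1‖ = ‖(w' - w) - ((s / ρ : ℝ) : ℂ) * v‖ := by rw [hw1]; ring_nf
          _ ≤ ‖w' - w‖ + ‖((s / ρ : ℝ) : ℂ) * v‖ := norm_sub_le _ _
          _ = (1 / ρ + 1) * s := by
            rw [norm_mul, hv, mul_one, Complex.norm_real, Real.norm_eq_abs, abs_of_nonneg hsρ0,
              add_mul, one_mul, one_div_mul_eq_div]
            ring
  · -- push
    refine ⟨v, ρ, ρ / 4, hv.le, hρ, hρ1, by positivity, ?_⟩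
    intro ε hε0 hε r w w' h hww
    refine ⟨r, h.1, h.2.2.1, h.2.2.2.1, ?_⟩
    set e : ℂ := ((1 / ε : ℝ) : ℂ) * (w' - w) with he
    have he' : ‖e‖ ≤ ρ := by
      rw [he, norm_mul, Complex.norm_real, Real.norm_eq_abs, abs_of_pos (by positivity),
        one_div_mul_eq_div, div_le_iff₀ hε0]
      exact hww.le
    have e1 : w' + ε * v = w + (ε : ℂ) * (v + e) := by
      have hεc : (ε : ℂ) ≠ 0 := by exact_mod_cast hε0.ne'
      rw [he]
      push_cast
      field_simp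
      ring
    rw [e1]
    have h2 := hcone r (hin' r w h) w e (by linarith [h.2.2.2.2]) he' ε hε0.le hε.le
    have h3 : 0 < c1 * ε := mul_pos hc1 hε0
    linarith [h.2.1]

end Pool.Helper51.Hart
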